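import Pool.Agent.Q301.BM.HFin

/-!
# The Hewitt extension of a `P`-space need not be a `P`-space in ZF

If there is a model of ZF, then there is a model of ZF with a Tychonoff space `E` (the real line
`r`) such that the discrete space of the real numbers is `E`-compact, and with an `E`-completely
regular `P`-space `x` whose Hewitt `E`-compact extension `v` is not a `P`-space.

The space `x` has points `p_n` such that every continuous real function in the model is eventually
constant along the `p_n`, so that the `p_n` converge in the Hewitt extension to a further point,
which is not a `P`-point.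
-/

namespace Pool.Agent.Results.MP_a61393_lc.HewittNotPSpace

open FirstOrder FirstOrder.Language
open Pool.Agent.Helper672.Plain (LSet El)
open Pool.Agent.H635Amen (ZF IsReals)
open Pool.Agent.H310Top (IsTopology)
open Pool.Agent.Q301.TM (IsTychonoff)
open Pool.Agent.Q301.BM

universe u

theorem result (h : ∃ (M : Type u) (_ : LSet.Structure M), ZF M) :
    ∃ (N : Type u) (_ : LSet.Structure N), ZF N ∧
      ∃ (r : N) (_ : Field (El r)) (_ : LinearOrder (El r)) (_ : IsStrictOrderedRing (El r)),
        IsReals r ∧ ∃ tE tD t x s v : N, IsUsualTop tE r ∧ IsTychonoff tE r r ∧
          IsDiscreteTop tD r ∧ IsECompact tD r tE r ∧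
          IsTopology t x ∧ IsECompletelyRegular t x tE r ∧ GdeltasOpen t ∧
          IsHewittExtension t x tE r s v ∧ ¬ GdeltasOpen s := by
  exact Pool.Agent.Q301.BM.pa61393 h

end Pool.Agent.Results.MP_a61393_lc.HewittNotPSpace
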